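import Mathlib

open FirstOrder FirstOrder.Language

universe u v w

namespace Pool.Agent.Results.MP_711d73_lc.NotInpMinimal

/-- Function symbols of the language of groups. -/
inductive MFun : ℕ → Type
  | one : MFun 0
  | inv : MFun 1
  | mul : MFun 2

/-- Relation symbols: the binary `lt` and the unary `P n r`, for `0 ≤ r < n`. -/
inductive MRel : ℕ → Type
  | lt : MRel 2
  | P (n : ℕ) (r : Fin n) : MRel 1

/-- Function symbols of the language of rings together with the language of groups. -/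
inductive CFun : ℕ → Type
  | zero : CFun 0
  | one : CFun 0
  | neg : CFun 1
  | inv : CFun 1
  | add : CFun 2
  | mul : CFun 2

/-- The language `L_m`. -/
def Lm : FirstOrder.Language := ⟨MFun, MRel⟩

/-- The language `L_c`. -/
def Lc : FirstOrder.Language := ⟨CFun, MRel⟩

/-- Interpretations of `<` and of the `P^r_n` on a set `G`. -/
structure OrdData (G : Type u) where
  lt : G → G → Prop
  P : (n : ℕ) → Fin n → G → Prop

/-- The `L_m`-structure `(G; <, P)` on a group `G`. -/
@[reducible] def OrdData.mStructure {G : Type u} [Group G] (S : OrdData G) : Lm.Structure G where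
  funMap := fun {_} f => match f with
    | MFun.one => fun _ => 1
    | MFun.inv => fun x => (x 0)⁻¹
    | MFun.mul => fun x => x 0 * x 1
  RelMap := fun {_} R => match R with
    | MRel.lt => fun x => S.lt (x 0) (x 1)
    | MRel.P n r => fun x => S.P n r (x 0)

/-- The `L_c`-structure `(F; <, P)` on a field `F`, with `<` and the `P^r_n` living on `Fˣ`. -/
@[reducible] def OrdData.cStructure {F : Type u} [Field F] (S : OrdData Fˣ) :
    Lc.Structure F where
  funMap := fun {_} f => match f with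
    | CFun.zero => fun _ => 0
    | CFun.one => fun _ => 1
    | CFun.neg => fun x => - x 0
    | CFun.inv => fun x => (x 0)⁻¹
    | CFun.add => fun x => x 0 + x 1
    | CFun.mul => fun x => x 0 * x 1
  RelMap := fun {_} R => match R with
    | MRel.lt => fun x => ∃ a b : Fˣ, (a : F) = x 0 ∧ (b : F) = x 1 ∧ S.lt a b
    | MRel.P n r => fun x => ∃ a : Fˣ, (a : F) = x 0 ∧ S.P n r a

/-- `U_(p)`: the group of roots of unity in `ℂ` of order prime to `p`
(all roots of unity if `p = 0`). -/
def rootsU (p : ℕ) : Subgroup ℂˣ where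
  carrier := {z | ∃ n : ℕ, 0 < n ∧ (p = 0 ∨ n.Coprime p) ∧ z ^ n = 1}
  mul_mem' := by
    rintro a b ⟨n, hn, hp, ha⟩ ⟨m, hm, hq, hb⟩
    refine ⟨n * m, Nat.mul_pos hn hm, ?_, ?_⟩
    · rcases hp with hp | hp
      · exact Or.inl hp
      · rcases hq with hq | hq
        · exact Or.inl hq
        · exact Or.inr (Nat.Coprime.mul_left hp hq)
    · rw [mul_pow, pow_mul, ha, one_pow, mul_comm n m, pow_mul, hb, one_pow, one_mul]
  one_mem' := ⟨1, one_pos, Or.inr (Nat.coprime_one_left p), by simp⟩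
  inv_mem' := by
    rintro a ⟨n, hn, hp, ha⟩
    exact ⟨n, hn, hp, by rw [inv_pow, ha, inv_one]⟩

/-- The order on the unit circle carried over from `[0,1)` via `α ↦ exp (2πiα)`. -/
def circLt (a b : ℂ) : Prop :=
  ∃ α β : ℝ, 0 ≤ α ∧ α < β ∧ β < 1 ∧
    a = Complex.exp (2 * Real.pi * Complex.I * α) ∧ b = Complex.exp (2 * Real.pi * Complex.I * β)

/-- `wn(c,n) = #{0 ≤ k ≤ n-1 : c^(k+1) < c^k}`. -/
noncomputable def wn {G : Type u} [Group G] (lt : G → G → Prop) (c : G) (n : ℕ) : ℕ :=
  Set.ncard {k : ℕ | k < n ∧ lt (c ^ (k + 1)) (c ^ k)}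

/-- `<` and `P^r_n` on `U_(p)`. -/
def rootsOrd (p : ℕ) : OrdData (rootsU p) where
  lt := fun a b => circLt ((a : ℂˣ) : ℂ) ((b : ℂˣ) : ℂ)
  P := fun n r a => ∃ c : rootsU p, c ^ n = a ∧
    wn (fun a b : rootsU p => circLt ((a : ℂˣ) : ℂ) ((b : ℂˣ) : ℂ)) c n = r

/-- The theory `T_{m,p}` of `(U_(p); <, P)`. -/
def Tm (p : ℕ) : Lm.Theory :=
  letI := (rootsOrd p).mStructure
  Lm.completeTheory (rootsU p)

/-- `(F; <, P)` is a model of `ACFO⁻`: for some `p` (zero or a prime) the field `F` is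
algebraically closed of characteristic `p` and `(Fˣ; <, P)` is a model of `T_{m,p}`. -/
def IsACFOMinus (F : Type u) [Field F] (S : OrdData Fˣ) : Prop :=
  IsAlgClosed F ∧ ∃ p : ℕ, CharP F p ∧ (letI := S.mStructure; Fˣ ⊨ Tm p)

/-- Zariski-closed subsets of `F^m`. -/
def IsZariskiClosed {F : Type u} [Field F] {m : ℕ} (Z : Set (Fin m → F)) : Prop :=
  ∃ I : Set (MvPolynomial (Fin m) F), Z = {x | ∀ f ∈ I, MvPolynomial.eval x f = 0}

/-- Irreducible Zariski-closed subsets of `F^m`. -/
def IsIrredClosed {F : Type u} [Field F] {m : ℕ} (Z : Set (Fin m → F)) : Prop :=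
  IsZariskiClosed Z ∧ Z.Nonempty ∧
    ∀ A B : Set (Fin m → F), IsZariskiClosed A → IsZariskiClosed B → Z ⊆ A ∪ B → Z ⊆ A ∨ Z ⊆ B

/-- Quasi-affine varieties: nonempty Zariski-open subsets of irreducible Zariski-closed sets. -/
def IsQuasiAffine {F : Type u} [Field F] {m : ℕ} (V : Set (Fin m → F)) : Prop :=
  V.Nonempty ∧ ∃ Z W : Set (Fin m → F), IsIrredClosed Z ∧ IsZariskiClosed W ∧ V = Z \ W

/-- `V` is multiplicatively large: for `k ∈ ℤ^m`, `k ≠ 0`, and `c ∈ Fˣ`, the set
`V ∩ (Fˣ)^m` is not contained in `{x : ∏ x_i ^ k_i = c}`. -/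
def IsMultLarge {F : Type u} [Field F] {m : ℕ} (V : Set (Fin m → F)) : Prop :=
  ∀ (k : Fin m → ℤ) (c : Fˣ), k ≠ 0 →
    ¬ ∀ x : Fin m → Fˣ, (fun i => (x i : F)) ∈ V → ∏ i, x i ^ k i = c

/-- The topology on `Fˣ` with basis the sets `{a : 1 ≤ a < c'}` and `{a : c < a < c'}`. -/
@[reducible] def OrdData.topology {F : Type u} [Field F] (S : OrdData Fˣ) : TopologicalSpace Fˣ :=
  TopologicalSpace.generateFrom
    ({s | ∃ c' : Fˣ, s = {a | (a = 1 ∨ S.lt 1 a) ∧ S.lt a c'}} ∪
      {s | ∃ c c' : Fˣ, s = {a | S.lt c a ∧ S.lt a c'}})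

/-- `(F; <, P)` is generic: `V ∩ (Fˣ)^m` is dense in `(Fˣ)^m` for every multiplicatively large
quasi-affine variety `V ⊆ F^m`. -/
def IsGeneric (F : Type u) [Field F] (S : OrdData Fˣ) : Prop :=
  ∀ (m : ℕ) (V : Set (Fin m → F)), IsQuasiAffine V → IsMultLarge V →
    letI : TopologicalSpace Fˣ := S.topology
    Dense {x : Fin m → Fˣ | (fun i => (x i : F)) ∈ V}

/-- `(F; <, P)` is a model of `ACFO`: a generic model of `ACFO⁻`. -/
def IsACFO (F : Type u) [Field F] (S : OrdData Fˣ) : Prop :=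
  IsACFOMinus F S ∧ IsGeneric F S

/-- The complete theory of the `L_c`-structure `(F; <, P)`. -/
def theoryOf (F : Type u) [Field F] (S : OrdData Fˣ) : Lc.Theory :=
  letI := S.cStructure
  Lc.completeTheory F

/-- `T` has an inp-pattern in a single variable with rows indexed by `ι`: there are a model `N`
of `T`, formulas `φ i (x, y_i)`, numbers `k i` and parameters `b i j` in `N` such that every row
`{φ i (x, b i j) : j < ω}` is `k i`-inconsistent, while for each path `η` the set
`{φ i (x, b i (η i)) : i ∈ ι}` is consistent, that is, each finite part of it is satisfied by some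
element of `N`. -/
def HasInpPattern {L : FirstOrder.Language.{v, w}} (T : L.Theory) (ι : Type) : Prop :=
  ∃ (N : Type u) (_ : L.Structure N), N ⊨ T ∧
    ∃ (d : ι → ℕ) (φ : (i : ι) → L.Formula (Unit ⊕ Fin (d i))) (k : ι → ℕ)
      (b : (i : ι) → ℕ → Fin (d i) → N),
      (∀ (i : ι) (s : Finset ℕ), s.card = k i →
        ¬ ∃ x : N, ∀ j ∈ s, (φ i).Realize (Sum.elim (fun _ => x) (b i j))) ∧
      (∀ (η : ι → ℕ) (s : Finset ι),
        ∃ x : N, ∀ i ∈ s, (φ i).Realize (Sum.elim (fun _ => x) (b i (η i))))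

/-- `T` is inp-minimal: there is no inp-pattern of depth two in a single variable. -/
def IsInpMinimal {L : FirstOrder.Language.{v, w}} (T : L.Theory) : Prop :=
  ¬ HasInpPattern.{u} T (Fin 2)

/-! ### Facts about the order on `U_(p)` -/

lemma exp_inj {α β : ℝ} (hα : 0 ≤ α) (hα1 : α < 1) (hβ : 0 ≤ β) (hβ1 : β < 1)
    (h : Complex.exp (2 * Real.pi * Complex.I * α) = Complex.exp (2 * Real.pi * Complex.I * β)) :
    α = β := by
  rw [Complex.exp_eq_exp_iff_exists_int] at h
  obtain ⟨n, hn⟩ := h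
  have h2 : (2 * Real.pi * Complex.I : ℂ) ≠ 0 := by
    simp [Complex.I_ne_zero, Real.pi_ne_zero]
  have h3 : (α : ℂ) = β + n := by
    have : (2 * Real.pi * Complex.I : ℂ) * α = (2 * Real.pi * Complex.I : ℂ) * (β + n) := by
      rw [hn]; ring
    exact mul_left_cancel₀ h2 this
  have h4 : α = β + n := by exact_mod_cast h3
  have h5 : n = 0 := by
    have h6 : (n : ℝ) < 1 := by linarith
    have h7 : (-1 : ℝ) < n := by linarith
    have h8 : n < 1 := by exact_mod_cast h6
    have h9 : -1 < n := by exact_mod_cast h7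
    omega
  rw [h5] at h4
  simpa using h4

lemma circLt_irrefl (a : ℂ) : ¬ circLt a a := by
  rintro ⟨α, β, h0, h1, h2, h3, h4⟩
  have := exp_inj h0 (h1.trans h2) (h0.trans h1.le) h2 (h3.symm.trans h4)
  exact absurd this h1.ne

lemma circLt_trans {a b c : ℂ} (hab : circLt a b) (hbc : circLt b c) : circLt a c := by
  obtain ⟨α, β, h0, h1, h2, h3, h4⟩ := hab
  obtain ⟨β', γ, g0, g1, g2, g3, g4⟩ := hbc
  have := exp_inj (h0.trans h1.le) h2 g0 (g1.trans g2) (h4.symm.trans g3)
  subst this
  exact ⟨α, γ, h0, h1.trans g1, g2, h3, g4⟩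

lemma exists_ell {p : ℕ} (hp : p.Prime ∨ p = 0) :
    ∃ l : ℕ, 2 ≤ l ∧ (p = 0 ∨ l.Coprime p) := by
  rcases hp with hp | hp
  · by_cases h2 : p = 2
    · exact ⟨3, by norm_num, Or.inr (by rw [h2]; decide)⟩
    · exact ⟨2, le_refl _, Or.inr ((Nat.coprime_primes Nat.prime_two hp).2 (Ne.symm h2))⟩
  · exact ⟨2, le_refl _, Or.inl hp⟩

lemma roots_dense {p : ℕ} (hp : p.Prime ∨ p = 0) (a b : rootsU p)
    (h : (rootsOrd p).lt a b) : ∃ c : rootsU p, (rootsOrd p).lt a c ∧ (rootsOrd p).lt c b := by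
  obtain ⟨l, hl2, hl⟩ := exists_ell hp
  obtain ⟨α, β, h0, h1, h2, h3, h4⟩ := h
  obtain ⟨n, hn, hnp, ha⟩ := a.2
  obtain ⟨m, hm, hmp, hb⟩ := b.2
  have ha' : Complex.exp (2 * Real.pi * Complex.I * α) ^ n = 1 := by
    rw [← h3, ← Units.val_pow_eq_pow_val, ha, Units.val_one]
  have hb' : Complex.exp (2 * Real.pi * Complex.I * β) ^ m = 1 := by
    rw [← h4, ← Units.val_pow_eq_pow_val, hb, Units.val_one]
  have hlpos : (0 : ℝ) < l := by
    have : (0 : ℕ) < l := by omega
    exact_mod_cast this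
  have hl1 : (1 : ℝ) < l := by
    have : (1 : ℕ) < l := by omega
    exact_mod_cast this
  have hlne : (l : ℂ) ≠ 0 := by
    have : l ≠ 0 := by omega
    exact_mod_cast this
  set γ : ℝ := α + (β - α) / l with hγ
  have hαγ : α < γ := by
    have : 0 < (β - α) / l := div_pos (by linarith) hlpos
    linarith
  have hγβ : γ < β := by
    have : (β - α) / l < β - α := div_lt_self (by linarith) hl1
    linarith
  have key : Complex.exp (2 * Real.pi * Complex.I * γ) ^ (l * (n * m)) = 1 := by
    have e1 : Complex.exp (2 * Real.pi * Complex.I * γ) ^ l =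
        Complex.exp (2 * Real.pi * Complex.I * α) ^ (l - 1) *
          Complex.exp (2 * Real.pi * Complex.I * β) := by
      rw [← Complex.exp_nat_mul, ← Complex.exp_nat_mul, ← Complex.exp_add]
      congr 1
      rw [Nat.cast_sub (by omega : 1 ≤ l), hγ]
      push_cast
      field_simp
      ring
    rw [pow_mul, e1, mul_pow, ← pow_mul, mul_comm (l - 1), pow_mul, pow_mul _ n m, ha', one_pow,
      one_pow, one_mul, mul_comm n m, pow_mul, hb', one_pow]
  refine ⟨⟨Units.mk0 (Complex.exp (2 * Real.pi * Complex.I * γ)) (Complex.exp_ne_zero _),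
    l * (n * m), by positivity, ?_, ?_⟩, ⟨α, γ, h0, hαγ, hγβ.trans h2, h3, rfl⟩,
    ⟨γ, β, h0.trans hαγ.le, hγβ, h2, rfl, h4⟩⟩
  · rcases hl with hl | hl
    · exact Or.inl hl
    · rcases hnp with hnp | hnp
      · exact Or.inl hnp
      · rcases hmp with hmp | hmp
        · exact Or.inl hmp
        · exact Or.inr (Nat.Coprime.mul_left hl (Nat.Coprime.mul_left hnp hmp))
  · ext
    simp only [Units.val_pow_eq_pow_val, Units.val_mk0, Units.val_one]
    exact key

lemma roots_nontrivial {p : ℕ} (hp : p.Prime ∨ p = 0) :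
    ∃ a b : rootsU p, (rootsOrd p).lt a b := by
  obtain ⟨l, hl2, hl⟩ := exists_ell hp
  have hlpos : (0 : ℝ) < l := by
    have : (0 : ℕ) < l := by omega
    exact_mod_cast this
  have hlne : (l : ℂ) ≠ 0 := by
    have : l ≠ 0 := by omega
    exact_mod_cast this
  refine ⟨1, ⟨Units.mk0 (Complex.exp (2 * Real.pi * Complex.I * ((1 / l : ℝ) : ℂ)))
    (Complex.exp_ne_zero _), l, by omega, hl, ?_⟩, 0, 1 / l, le_refl _, by positivity, ?_, ?_, ?_⟩
  · ext
    simp only [Units.val_pow_eq_pow_val, Units.val_mk0, Units.val_one]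
    rw [← Complex.exp_nat_mul]
    push_cast
    rw [show (l : ℂ) * (2 * Real.pi * Complex.I * (1 / (l : ℂ))) = 2 * Real.pi * Complex.I by
      field_simp]
    exact Complex.exp_two_pi_mul_I
  · rw [div_lt_one hlpos]
    have : (2 : ℝ) ≤ l := by exact_mod_cast hl2
    linarith
  · simp
  · rfl

/-! ### First-order consequences in `L_m` -/

/-- The symbol `<` of `L_m`. -/
def ltSym : Lm.Relations 2 := MRel.lt

/-- Density of `<`. -/
def denseSentence : Lm.Sentence :=
  ∀' ∀' ((ltSym.boundedFormula₂ (&0) (&1)) ⟹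
    ∃' ((ltSym.boundedFormula₂ (&0) (&2)) ⊓ (ltSym.boundedFormula₂ (&2) (&1))))

/-- `<` is not empty. -/
def nontrivSentence : Lm.Sentence :=
  ∃' ∃' (ltSym.boundedFormula₂ (&0) (&1))

lemma realize_lt {G : Type u} [Group G] (S : OrdData G) (a b : G) :
    (letI := S.mStructure; Structure.RelMap ltSym ![a, b]) ↔ S.lt a b := Iff.rfl

lemma realize_dense {G : Type u} [Group G] (S : OrdData G) :
    (letI := S.mStructure; G ⊨ denseSentence) ↔
      ∀ a b, S.lt a b → ∃ c, S.lt a c ∧ S.lt c b := by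
  let _ := S.mStructure
  simp only [denseSentence, Sentence.Realize, Formula.Realize, BoundedFormula.realize_all,
    BoundedFormula.realize_imp, BoundedFormula.realize_ex, BoundedFormula.realize_inf,
    BoundedFormula.realize_rel₂]
  rfl

lemma realize_nontriv {G : Type u} [Group G] (S : OrdData G) :
    (letI := S.mStructure; G ⊨ nontrivSentence) ↔ ∃ a b, S.lt a b := by
  let _ := S.mStructure
  simp only [nontrivSentence, Sentence.Realize, Formula.Realize,
    BoundedFormula.realize_ex, BoundedFormula.realize_rel₂]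
  rfl

structure GoodOrder {G : Type u} (S : OrdData G) : Prop where
  irrefl : ∀ a, ¬ S.lt a a
  trans : ∀ a b c, S.lt a b → S.lt b c → S.lt a c
  dense : ∀ a b, S.lt a b → ∃ c, S.lt a c ∧ S.lt c b
  nontriv : ∃ a b, S.lt a b

lemma rootsOrd_good {p : ℕ} (hp : p.Prime ∨ p = 0) : GoodOrder (rootsOrd p) where
  irrefl := fun _ => circLt_irrefl _
  trans := fun _ _ _ => circLt_trans
  dense := roots_dense hp
  nontriv := roots_nontrivial hp

lemma good_of_acfo {F : Type u} [Field F] {S : OrdData Fˣ} (h : IsACFOMinus F S) :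
    GoodOrder S := by
  obtain ⟨_, p, hc, hT⟩ := h
  have hp : p.Prime ∨ p = 0 := CharP.char_is_prime_or_zero F p
  have good := rootsOrd_good hp
  have tr : ∀ φ : Lm.Sentence, (letI := (rootsOrd p).mStructure; rootsU p ⊨ φ) →
      (letI := S.mStructure; Fˣ ⊨ φ) := by
    intro φ hφ
    let _ := S.mStructure
    let _ := (rootsOrd p).mStructure
    exact hT.realize_of_mem φ hφ
  refine ⟨?_, ?_, ?_, ?_⟩
  · have h1 := tr ltSym.irreflexive (by
      let _ := (rootsOrd p).mStructure
      exact Relations.realize_irreflexive.2 ⟨good.irrefl⟩)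
    let _ := S.mStructure
    exact (Relations.realize_irreflexive.1 h1).irrefl
  · have h1 := tr ltSym.transitive (by
      let _ := (rootsOrd p).mStructure
      exact Relations.realize_transitive.2 ⟨good.trans⟩)
    let _ := S.mStructure
    exact (Relations.realize_transitive.1 h1).trans
  · exact (realize_dense S).1 (tr denseSentence ((realize_dense (rootsOrd p)).2 good.dense))
  · exact (realize_nontriv S).1 (tr nontrivSentence ((realize_nontriv (rootsOrd p)).2 good.nontriv))

/-! ### Infinitely many disjoint intervals -/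

lemma exists_intervals {G : Type u} {S : OrdData G} (h : GoodOrder S) :
    ∃ c : ℕ → G, (∀ n, S.lt (c n) (c (n + 1))) := by
  obtain ⟨a, b, hab⟩ := h.nontriv
  have step : ∀ x : {x : G // S.lt x b}, ∃ y : {x : G // S.lt x b}, S.lt x.1 y.1 := by
    rintro ⟨x, hx⟩
    obtain ⟨y, hy1, hy2⟩ := h.dense x b hx
    exact ⟨⟨y, hy2⟩, hy1⟩
  choose f hf using step
  refine ⟨fun n => (f^[n] ⟨a, hab⟩).1, fun n => ?_⟩
  have h1 := hf (f^[n] ⟨a, hab⟩)
  rw [← Function.iterate_succ_apply' f n] at h1
  exact h1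

lemma lt_of_seq {G : Type u} {S : OrdData G} (h : GoodOrder S) {c : ℕ → G}
    (hc : ∀ n, S.lt (c n) (c (n + 1))) : ∀ m n, m < n → S.lt (c m) (c n) := by
  intro m n hmn
  induction n, hmn using Nat.le_induction with
  | base => exact hc m
  | succ n _ ih => exact h.trans _ _ _ ih (hc n)

lemma disjoint_intervals {G : Type u} {S : OrdData G} (h : GoodOrder S) {c : ℕ → G}
    (hc : ∀ n, S.lt (c n) (c (n + 1))) {m n : ℕ} (hmn : m ≠ n) (x : G) :
    ¬ ((S.lt (c m) x ∧ S.lt x (c (m + 1))) ∧ (S.lt (c n) x ∧ S.lt x (c (n + 1)))) := by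
  rintro ⟨⟨h1, h2⟩, h3, h4⟩
  have key : ∀ m n, m < n → S.lt x (c (m + 1)) → S.lt (c n) x → False := by
    intro m n hmn h2 h3
    rcases Nat.lt_or_ge (m + 1) n with h5 | h5
    · exact h.irrefl _ (h.trans _ _ _ (h.trans _ _ _ h2 (lt_of_seq h hc _ _ h5)) h3)
    · have : n = m + 1 := by omega
      subst this
      exact h.irrefl _ (h.trans _ _ _ h2 h3)
  rcases Nat.lt_or_gt_of_ne hmn with h5 | h5
  · exact key m n h5 h2 h3
  · exact key n m h5 h4 h1

/-! ### The line `{(t + a_1, ..., t + a_m)}` -/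

/-- The line `{(t + a_1, ..., t + a_m) : t ∈ F}`. -/
def line {F : Type u} [Field F] {m : ℕ} (a : Fin m → F) : Set (Fin m → F) :=
  {x | ∃ t : F, ∀ i, x i = t + a i}

lemma isZariskiClosed_line {F : Type u} [Field F] {m : ℕ} (a : Fin m → F) :
    IsZariskiClosed (line a) := by
  refine ⟨{f | ∃ i j : Fin m, f = (MvPolynomial.X i - MvPolynomial.C (a i)) -
    (MvPolynomial.X j - MvPolynomial.C (a j))}, ?_⟩
  ext x
  constructor
  · rintro ⟨t, ht⟩ f ⟨i, j, rfl⟩
    simp [ht]
  · intro hx
    rcases m.eq_zero_or_pos with hm | hm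
    · subst hm
      exact ⟨0, fun i => i.elim0⟩
    · refine ⟨x ⟨0, hm⟩ - a ⟨0, hm⟩, fun i => ?_⟩
      have := hx _ ⟨i, ⟨0, hm⟩, rfl⟩
      simp at this
      linear_combination this

lemma eval_line {F : Type u} [Field F] {m : ℕ} (a : Fin m → F) (f : MvPolynomial (Fin m) F)
    (t : F) : MvPolynomial.eval (fun i => t + a i) f =
      Polynomial.eval t (MvPolynomial.aeval (fun i => Polynomial.X + Polynomial.C (a i)) f) := by
  induction f using MvPolynomial.induction_on with
  | C c => simp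
  | add p q hp hq => simp [hp, hq]
  | mul_X p i hp => simp [hp]

lemma isIrredClosed_line {F : Type u} [Field F] [Infinite F] {m : ℕ} (a : Fin m → F) :
    IsIrredClosed (line a) := by
  refine ⟨isZariskiClosed_line a, ⟨fun i => 0 + a i, 0, fun i => rfl⟩, ?_⟩
  rintro A B ⟨I, rfl⟩ ⟨J, rfl⟩ h
  by_contra hcon
  push Not at hcon
  obtain ⟨hA, hB⟩ := hcon
  obtain ⟨x, ⟨t, ht⟩, hx⟩ := Set.not_subset.1 hA
  obtain ⟨y, ⟨s, hs⟩, hy⟩ := Set.not_subset.1 hB
  simp only [Set.mem_ofPred_eq, not_forall] at hx hy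
  obtain ⟨f, hf, hfx⟩ := hx
  obtain ⟨g, hg, hgy⟩ := hy
  have hx' : x = fun i => t + a i := funext ht
  have hy' : y = fun i => s + a i := funext hs
  rw [hx', eval_line] at hfx
  rw [hy', eval_line] at hgy
  set P := MvPolynomial.aeval (fun i => Polynomial.X + Polynomial.C (a i)) f
  set Q := MvPolynomial.aeval (fun i => Polynomial.X + Polynomial.C (a i)) g
  have hP : P ≠ 0 := fun h0 => hfx (by rw [h0]; simp)
  have hQ : Q ≠ 0 := fun h0 => hgy (by rw [h0]; simp)
  have hPQ : P * Q = 0 := by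
    apply Polynomial.funext
    intro r
    rw [Polynomial.eval_mul, Polynomial.eval_zero]
    have hr := h (show (fun i => r + a i) ∈ line a from ⟨r, fun i => rfl⟩)
    rcases hr with hr | hr
    · rw [← eval_line a f r, hr f hf, zero_mul]
    · rw [← eval_line a g r, hr g hg, mul_zero]
  rcases mul_eq_zero.1 hPQ with h0 | h0
  · exact hP h0
  · exact hQ h0

lemma isQuasiAffine_line {F : Type u} [Field F] [Infinite F] {m : ℕ} (a : Fin m → F) :
    IsQuasiAffine (line a) := by
  refine ⟨(isIrredClosed_line a).2.1, line a, ∅, isIrredClosed_line a, ⟨{1}, ?_⟩, by simp⟩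
  ext x
  simp

lemma isMultLarge_line {F : Type u} [Field F] {m : ℕ} [Infinite F] (a : Fin m → F)
    (ha : Function.Injective a) : IsMultLarge (line a) := by
  intro k c hk hcon
  set P : Polynomial F := ∏ i, (Polynomial.X + Polynomial.C (a i)) ^ (k i).toNat with hP
  set N : Polynomial F := ∏ i, (Polynomial.X + Polynomial.C (a i)) ^ (-k i).toNat with hN
  set R : Polynomial F := ∏ i, (Polynomial.X + Polynomial.C (a i)) with hR
  have hR0 : R ≠ 0 := Finset.prod_ne_zero_iff.2 (fun i _ => Polynomial.X_add_C_ne_zero (a i))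
  have hPN : (P - Polynomial.C (c : F) * N) * R = 0 := by
    apply Polynomial.funext
    intro t
    rw [Polynomial.eval_mul, Polynomial.eval_zero]
    by_cases ht : ∀ i, t + a i ≠ 0
    · have h1 := hcon (fun i => Units.mk0 (t + a i) (ht i)) ⟨t, fun i => rfl⟩
      have h2 : (∏ i, (Units.mk0 (t + a i) (ht i)) ^ (k i).toNat) =
          c * ∏ i, (Units.mk0 (t + a i) (ht i)) ^ (-k i).toNat := by
        rw [← h1, ← Finset.prod_mul_distrib]
        refine Finset.prod_congr rfl (fun i _ => ?_)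
        rw [← zpow_natCast, ← zpow_natCast, ← zpow_add]
        congr 1
        have := Int.toNat_sub_toNat_neg (k i)
        omega
      have h3 := congrArg (fun z : Fˣ => (z : F)) h2
      simp only [Units.coe_prod, Units.val_mul, Units.val_pow_eq_pow_val, Units.val_mk0] at h3
      have h4 : Polynomial.eval t P = c * Polynomial.eval t N := by
        rw [hP, hN, Polynomial.eval_prod, Polynomial.eval_prod]
        simpa using h3
      rw [Polynomial.eval_sub, Polynomial.eval_mul, Polynomial.eval_C, h4, sub_self, zero_mul]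
    · push Not at ht
      obtain ⟨i, hi⟩ := ht
      have : Polynomial.eval t R = 0 := by
        rw [hR, Polynomial.eval_prod]
        exact Finset.prod_eq_zero (Finset.mem_univ i) (by simpa using hi)
      rw [this, mul_zero]
  have hPN' : P = Polynomial.C (c : F) * N := by
    rcases mul_eq_zero.1 hPN with h | h
    · exact sub_eq_zero.1 h
    · exact absurd h hR0
  obtain ⟨i, hi⟩ := Function.ne_iff.1 hk
  have hne : ∀ e : Fin m → ℕ, e i = 0 →
      Polynomial.eval (-a i) (∏ j, (Polynomial.X + Polynomial.C (a j)) ^ e j) ≠ 0 := by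
    intro e he
    rw [Polynomial.eval_prod]
    refine Finset.prod_ne_zero_iff.2 (fun j _ => ?_)
    by_cases hj : j = i
    · subst hj
      simp [he]
    · simp only [Polynomial.eval_pow, Polynomial.eval_add, Polynomial.eval_X, Polynomial.eval_C]
      refine pow_ne_zero _ (fun h0 => hj (ha ?_))
      linear_combination h0
  have hzero : ∀ e : Fin m → ℕ, e i ≠ 0 →
      Polynomial.eval (-a i) (∏ j, (Polynomial.X + Polynomial.C (a j)) ^ e j) = 0 := by
    intro e he
    rw [Polynomial.eval_prod]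
    refine Finset.prod_eq_zero (Finset.mem_univ i) ?_
    simp [he]
  have hev := congrArg (Polynomial.eval (-a i)) hPN'
  rw [Polynomial.eval_mul, Polynomial.eval_C] at hev
  rcases lt_or_gt_of_ne hi with h | h
  · have h1 : Polynomial.eval (-a i) P ≠ 0 := hne (fun i => (k i).toNat) (by
      have : k i < 0 := h
      show (k i).toNat = 0
      omega)
    have h2 : Polynomial.eval (-a i) N = 0 := hzero (fun i => (-k i).toNat) (by
      have : k i < 0 := h
      show (-k i).toNat ≠ 0
      omega)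
    rw [h2, mul_zero] at hev
    exact h1 hev
  · have h1 : Polynomial.eval (-a i) P = 0 := hzero (fun i => (k i).toNat) (by
      have : 0 < k i := h
      show (k i).toNat ≠ 0
      omega)
    have h2 : Polynomial.eval (-a i) N ≠ 0 := hne (fun i => (-k i).toNat) (by
      have : 0 < k i := h
      show (-k i).toNat = 0
      omega)
    rw [h1] at hev
    exact (mul_ne_zero (Units.ne_zero c) h2) hev.symm

/-! ### The pattern -/

/-- For pairwise distinct `a_i` and nonempty intervals `(c_i, d_i)` there is `t` with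
`c_i < t + a_i < d_i` for all `i`. -/
lemma exists_point {F : Type u} [Field F] {S : OrdData Fˣ} (h : IsACFO F S) {m : ℕ}
    (a : Fin m → F) (ha : Function.Injective a) (c d : Fin m → Fˣ)
    (hcd : ∀ i, S.lt (c i) (d i)) :
    ∃ (t : F) (x : Fin m → Fˣ), (∀ i, (x i : F) = t + a i) ∧
      ∀ i, S.lt (c i) (x i) ∧ S.lt (x i) (d i) := by
  have good := good_of_acfo h.1
  have : IsAlgClosed F := h.1.1
  have : Infinite F := IsAlgClosed.instInfinite
  let _ : TopologicalSpace Fˣ := S.topology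
  have hd := h.2 m (line a) (isQuasiAffine_line a) (isMultLarge_line a ha)
  have hopen : IsOpen (Set.univ.pi (fun i => {x : Fˣ | S.lt (c i) x ∧ S.lt x (d i)})) := by
    refine isOpen_set_pi Set.finite_univ (fun i _ => ?_)
    exact TopologicalSpace.isOpen_generateFrom_of_mem (Or.inr ⟨c i, d i, rfl⟩)
  have hne : (Set.univ.pi (fun i => {x : Fˣ | S.lt (c i) x ∧ S.lt x (d i)})).Nonempty := by
    have := fun i => good.dense (c i) (d i) (hcd i)
    choose y hy using this
    exact ⟨y, fun i _ => hy i⟩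
  obtain ⟨x, hx1, hx2⟩ := hd.inter_open_nonempty _ hopen hne
  obtain ⟨t, ht⟩ := hx2
  exact ⟨t, x, ht, fun i => hx1 i (Set.mem_univ i)⟩

/-- The symbol `<` of `L_c`. -/
def ltSymC : Lc.Relations 2 := MRel.lt

/-- The symbol `+` of `L_c`. -/
def addSym : Lc.Functions 2 := CFun.add

/-- The formula `y_0 < x + y_2 < y_1`. -/
def phi : Lc.Formula (Unit ⊕ Fin 3) :=
  (ltSymC.formula₂ (Term.var (Sum.inr 0)) (addSym.apply₂ (Term.var (Sum.inl ()))
    (Term.var (Sum.inr 2)))) ⊓
  (ltSymC.formula₂ (addSym.apply₂ (Term.var (Sum.inl ())) (Term.var (Sum.inr 2)))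
    (Term.var (Sum.inr 1)))

lemma realize_phi {F : Type u} [Field F] (S : OrdData Fˣ) (x : F) (y : Fin 3 → F) :
    (letI := S.cStructure; phi.Realize (Sum.elim (fun _ => x) y)) ↔
      (∃ a b : Fˣ, (a : F) = y 0 ∧ (b : F) = x + y 2 ∧ S.lt a b) ∧
      (∃ a b : Fˣ, (a : F) = x + y 2 ∧ (b : F) = y 1 ∧ S.lt a b) := by
  let _ := S.cStructure
  simp only [phi, Formula.realize_inf, Formula.realize_rel₂]
  rfl

theorem hasPattern {F : Type u} [Field F] {S : OrdData Fˣ} (h : IsACFO F S) :
    HasInpPattern.{u} (theoryOf F S) ℕ := by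
  have good := good_of_acfo h.1
  have : IsAlgClosed F := h.1.1
  have : Infinite F := IsAlgClosed.instInfinite
  obtain ⟨c, hc⟩ := exists_intervals good
  let a : ℕ → F := Infinite.natEmbedding F
  have ha : Function.Injective a := (Infinite.natEmbedding F).injective
  let _ := S.cStructure
  refine ⟨F, S.cStructure, (inferInstance : F ⊨ Lc.completeTheory F), fun _ => 3, fun _ => phi,
    fun _ => 2, fun i j => ![(c j : F), (c (j + 1) : F), a i], ?_, ?_⟩
  · intro i s hs ⟨x, hx⟩
    obtain ⟨j, j', hjj, hs'⟩ := Finset.card_eq_two.1 hs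
    have key : ∀ j ∈ s, ∀ u : Fˣ, (u : F) = x + a i → S.lt (c j) u ∧ S.lt u (c (j + 1)) := by
      intro j hj u hu
      obtain ⟨⟨v, w, hv, hw, h1⟩, v', w', hv', hw', h2⟩ := (realize_phi S _ _).1 (hx j hj)
      simp only [Matrix.cons_val] at hv hw hv' hw'
      rw [← hu] at hw hv'
      rw [Units.ext hv, Units.ext hw] at h1
      rw [Units.ext hv', Units.ext hw'] at h2
      exact ⟨h1, h2⟩
    obtain ⟨⟨_, u, _, hu, _⟩, _⟩ := (realize_phi S _ _).1 (hx j (by simp [hs']))
    simp only [Matrix.cons_val] at hu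
    exact disjoint_intervals good hc hjj u
      ⟨key j (by simp [hs']) u hu, key j' (by simp [hs']) u hu⟩
  · intro η s
    let e := s.equivFin.symm
    obtain ⟨t, x, hx1, hx2⟩ := exists_point h (fun i => a (e i))
      (fun i j hij => e.injective (Subtype.ext (ha hij))) (fun i => c (η (e i)))
      (fun i => c (η (e i) + 1)) (fun i => hc _)
    refine ⟨t, fun i hi => (realize_phi S _ _).2 ?_⟩
    obtain ⟨k, hk⟩ : ∃ k, (e k : ℕ) = i := ⟨e.symm ⟨i, hi⟩, by simp⟩
    have h1 := hx1 k
    have h2 := hx2 k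
    rw [hk] at h1
    simp only [hk] at h2
    simp only [Matrix.cons_val]
    exact ⟨⟨c (η i), x k, rfl, h1, h2.1⟩, ⟨x k, c (η i + 1), h1, rfl, h2.2⟩⟩

/-- Restricting an inp-pattern to fewer rows. -/
theorem HasInpPattern.restrict {L : FirstOrder.Language.{v, w}} {T : L.Theory} {ι κ : Type}
    (f : κ → ι) (hf : Function.Injective f) (h : HasInpPattern.{u} T ι) :
    HasInpPattern.{u} T κ := by
  classical
  obtain ⟨N, hN, hT, d, φ, k, b, h1, h2⟩ := h
  refine ⟨N, hN, hT, fun i => d (f i), fun i => φ (f i), fun i => k (f i), fun i => b (f i),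
    fun i => h1 (f i), fun η s => ?_⟩
  obtain ⟨η', hη'⟩ : ∃ η' : ι → ℕ, ∀ i, η' (f i) = η i :=
    ⟨Function.extend f η 0, fun i => hf.extend_apply η 0 i⟩
  obtain ⟨x, hx⟩ := h2 η' (s.image f)
  refine ⟨x, fun i hi => ?_⟩
  have := hx (f i) (Finset.mem_image_of_mem f hi)
  rwa [hη'] at this

/-- No model of `ACFO` is inp-minimal: the complete theory of every model of `ACFO` has an
inp-pattern of depth `ω` in a single variable. -/
theorem result (F : Type u) [Field F] (S : OrdData Fˣ) (h : IsACFO F S) :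
    HasInpPattern.{u} (theoryOf F S) ℕ ∧ ¬ IsInpMinimal.{u} (theoryOf F S) :=
  ⟨hasPattern h, fun h2 => h2 ((hasPattern h).restrict (fun i : Fin 2 => (i : ℕ))
    Fin.val_injective)⟩

end Pool.Agent.Results.MP_711d73_lc.NotInpMinimal
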